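import Pool.Agent.H540.TE.Pg

/-!
# Almost primes `n` with `n ^ 2 - 2` almost prime, `n - 1` a difference of two elements of a set of `N ^ (1 - c)` integers

A theorem of the type of Furstenberg and Sárközy, with a power saving, for the almost prime values of `n ^ 2 - 2`.
Let `δ > 0`. There are `c > 0` and `R` such that for large `N` in every set `A` of integers in `[1, N]` with at least
`N ^ (1 - c)` elements there are at least `N ^ (2 - δ)` pairs of elements `b < a` such that with `n = a - b + 1` the
number `n ^ 2 - 2` has at most three prime factors, all at least `N ^ (6 / 25)`, and `n` has at most `R` prime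
factors, all at least `N ^ c` (with multiplicity). Moreover the differences can be sieved: for the primes `p ≤ N ^ c`
let `Y p` be any set of at most `h` nonzero residue classes; the differences `a - b` may be taken outside of all
these classes (`c` and `R` depend on `δ` and `h`, but not on the classes). The class of zero cannot be excluded, since
all elements of `A` may be multiples of `p`; and the differences themselves in place of `n` would not do,
since for a set of even numbers all values `(a - b) ^ 2 - 2` are even.

For `A` the set of all integers up to `N` this is the theorem of Richert on the almost prime values of polynomials. For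
the differences `p - 1` and `p + 1`, `p` prime, such a power saving is a theorem of B. Green.

Method: the small primes (up to a small power of `N`) are sieved by a combination of additive characters with
majorising properties: with `t_p (m) = (K + 1) 1_{p | m} - x_p (m)`, where `x_p` is the indicator function of the
excluded classes and their negatives, `L = ∑_{d ≤ D} (1 - log d / log D) ∏_{p | d} t_p` and its analogues `L_p`
give `f = L ^ 2 - ∑_p x_p L_p ^ 2 ≤ 0` outside of the sifted set, and the Fourier coefficients of `f`
which are not small are nonnegative, so that their contribution is bounded from below by the main term, however sparse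
`A` is. The larger primes are treated by the linear sieve with the weights of Richert, with the level `N ^ (24 / 25)`:
the mean free parts of their indicator functions, multiplied by `L ^ 2` or `L_p ^ 2`, are dominated
by functions with nonnegative coefficients, whose pair sums are bounded by the large sieve; the loss by the
sparsity of `A` is compensated by the gain from the size of these primes.
-/

set_option autoImplicit false

namespace Pool.Agent.Results.MP_0b748d_nt.DifferencesOfSparseSets

open Finset Filter Polynomial

/-- `n` is positive and has at most `r` prime factors, counted with multiplicity, all at least `y`. -/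
def AlmostPrime (r : ℕ) (y : ℝ) (n : ℕ) : Prop :=
  0 < n ∧ n.primeFactorsList.length ≤ r ∧ ∀ p : ℕ, p.Prime → p ∣ n → y ≤ p

/-- For each prime `p ≤ y` the set `Y p` has at most `h` elements and does not contain `0`. -/
def Classes (h : ℕ) (y : ℝ) (Y : ℕ → Finset ℕ) : Prop :=
  ∀ p : ℕ, p.Prime → (p : ℝ) ≤ y → (Y p).card ≤ h ∧ 0 ∉ Y p

/-- `m` is modulo no prime `p ≤ y` congruent to an element of `Y p` (the elements of `Y p` are less than `p`). -/
def Avoids (y : ℝ) (Y : ℕ → Finset ℕ) (m : ℕ) : Prop :=
  ∀ p : ℕ, p.Prime → (p : ℝ) ≤ y → m % p ∉ Y p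

open Classical in
/-- The number of pairs of elements `b < a` of `A` for which `a - b` avoids the classes of `Y` modulo the primes up
to `y`, and with `n = a - b + 1` the number `n ^ 2 - 2` has at most three prime factors, all at least `z`,
and `n` has at most `R` prime factors, all at least `y`, counted with multiplicity. -/
noncomputable def pairCount (R : ℕ) (Y : ℕ → Finset ℕ) (y z : ℝ) (A : Finset ℕ) : ℕ :=
  ((A ×ˢ A).filter (fun w : ℕ × ℕ => w.2 < w.1 ∧ Avoids y Y (w.1 - w.2) ∧
    AlmostPrime 3 z ((w.1 - w.2 + 1) ^ 2 - 2) ∧ AlmostPrime R y (w.1 - w.2 + 1))).card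

theorem deg : (X ^ 2 + C 2 * X - 1 : ℤ[X]).natDegree = 2 := by compute_degree!

theorem irr : Irreducible (X ^ 2 + C 2 * X - 1 : ℤ[X]) := by
  have hm : (X ^ 2 + C 2 * X - 1 : ℤ[X]).Monic := by monicity!
  rw [Monic.irreducible_iff_roots_eq_zero_of_degree_le_three hm (by rw [deg]) (by rw [deg]; norm_num)]
  rw [Multiset.eq_zero_iff_forall_notMem]
  intro x hx
  rw [mem_roots hm.ne_zero, IsRoot.def] at hx
  simp only [eval_sub, eval_add, eval_mul, eval_pow, eval_X, eval_C, eval_one] at hx
  have h1 : x < 1 := by nlinarith
  have h2 : -3 < x := by nlinarith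
  interval_cases x <;> omega

/-- **Almost primes `n` with `n ^ 2 - 2` almost prime along the differences of a sparse set.** Let `h` be a natural
number and `δ > 0`. There are `c > 0` and `R` such that for all sufficiently large `N`, for any sets `Y p` of at most
`h` nonzero residue classes modulo the primes `p ≤ N ^ c`, every set `A` of integers in `[1, N]` with at least
`N ^ (1 - c)` elements has at least `N ^ (2 - δ)` pairs of elements `b < a` for which `a - b` lies in none of
the classes and, with `n = a - b + 1`, the number `n ^ 2 - 2` has at most three prime factors, all at least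
`N ^ (6 / 25)`, and `n` has at most `R` prime factors, all at least `N ^ c` (counted with multiplicity). -/
theorem result (h : ℕ) (δ : ℝ) (hδ : 0 < δ) :
    ∃ (c : ℝ) (R : ℕ), 0 < c ∧ ∀ᶠ N : ℕ in atTop, ∀ (Y : ℕ → Finset ℕ) (A : Finset ℕ),
      Classes h ((N : ℝ) ^ c) Y → A ⊆ Icc 1 N → (N : ℝ) ^ (1 - c) ≤ (A.card : ℝ) →
      (N : ℝ) ^ (2 - δ) ≤ (pairCount R Y ((N : ℝ) ^ c) ((N : ℝ) ^ (6 / 25 : ℝ)) A : ℝ) := by
  classical
  have hd : 0 < (X ^ 2 + C 2 * X - 1 : ℤ[X]).natDegree := by rw [deg]; norm_num
  have h0 : (X ^ 2 + C 2 * X - 1 : ℤ[X]).eval 0 ≠ 0 := by simp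
  obtain ⟨c, R, hc, hcδ, H⟩ := Pool.Agent.H540.PS.polyG _ irr hd h0 3 h 1 (fun _ => X + 1)
    (fun i hi => by simp) (by rw [deg]; norm_num) δ hδ
  refine ⟨c, R, hc, ?_⟩
  filter_upwards [H] with N hN Y A hY hA hAc
  refine (hN Y A hY hA hAc).trans ?_
  unfold pairCount
  refine Nat.cast_le.2 (card_le_card ?_)
  intro w hw
  rw [mem_filter] at hw ⊢
  obtain ⟨hwA, hlt, hav, ⟨n, h1, h2, h3⟩, hG⟩ := hw
  obtain ⟨m, hm⟩ : ∃ m, m = w.1 - w.2 := ⟨_, rfl⟩
  have hm1 : 1 ≤ m := by omega
  have hmz : (w.1 : ℤ) - w.2 = (m : ℤ) := by rw [hm, Nat.cast_sub hlt.le]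
  rw [← hm] at hav ⊢
  rw [hmz] at h1 hG
  refine ⟨hwA, hlt, hav, ?_, ?_⟩
  · have h4 : ((X ^ 2 + C 2 * X - 1 : ℤ[X]).eval (m : ℤ)).natAbs = (m + 1) ^ 2 - 2 := by
      simp only [eval_sub, eval_add, eval_mul, eval_pow, eval_X, eval_C, eval_one]
      have h6 : 2 ≤ (m + 1) ^ 2 := by nlinarith
      have : ((m : ℤ) ^ 2 + 2 * (m : ℤ) - 1) = (((m + 1) ^ 2 - 2 : ℕ) : ℤ) := by
        rw [Nat.cast_sub h6]
        push_cast
        ring
      rw [this, Int.natAbs_natCast]
    have h5 : ((X ^ 2 + C 2 * X - 1 : ℤ[X]).eval 0).natAbs = 1 := by simp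
    rw [h4, h5, one_mul] at h1
    have h7 : 2 < (m + 1) ^ 2 := by nlinarith
    refine ⟨by omega, ?_, ?_⟩
    · rw [h1]
      exact h2
    · rw [h1]
      exact h3
  · have h4 := hG 0 one_pos
    have h5 : ((X + 1 : ℤ[X]).eval (m : ℤ)).natAbs = m + 1 := by
      simp only [eval_add, eval_X, eval_one]
      have : ((m : ℤ) + 1) = ((m + 1 : ℕ) : ℤ) := by push_cast; rfl
      rw [this, Int.natAbs_natCast]
    rw [h5] at h4
    exact h4

end Pool.Agent.Results.MP_0b748d_nt.DifferencesOfSparseSets
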