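import Pool.Agent.H543.DP.Dig

/-!
# The primes `n ^ 2 - 2`: an upper bound, and almost primes

The number `P_{-2}(N)` of the problem is at most `48 / 13 + ε` times the expected number, and at least
`κ N / log N` of the numbers `n ^ 2 - 2`, `n ≤ N`, have at most two prime factors.  The same is proved
for the integers `n` in `(X, X + H]` in a class `r` modulo `Q`, uniformly in
`X ^ (1 - δ) ≤ H ≤ X / 2` and `Q ≤ X ^ δ`; for the integers `n` with prescribed first and last digits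
in a base `b` (a positive proportion of all digits); and every class with `r ^ 2 - 2` prime to `Q`
contains an `n ≤ K Q ^ M` such that `n ^ 2 - 2` has at most two prime factors.
-/

set_option autoImplicit false

namespace Pool.Agent.Results.MP_0b748d_nt.UpperBoundAndAlmostPrimes

open Filter Finset Topology

/-- the value `n ^ 2 - 2` -/
def F (n : ℤ) : ℤ := n ^ 2 - 2

/-- `P_{-2}(N)`: the number of the `2 ≤ n ≤ N` for which `n ^ 2 - 2` is prime -/
def P (N : ℕ) : ℕ := ((Finset.Icc 2 N).filter (fun n : ℕ => (n ^ 2 - 2).Prime)).card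

/-- the partial products over the odd primes -/
noncomputable def partialC (N : ℕ) : ℝ :=
  ∏ p ∈ (Finset.range (N + 1)).filter (fun p : ℕ => p.Prime ∧ p ≠ 2),
    (1 - (jacobiSym 2 p : ℝ) / ((p : ℝ) - 1))

/-- `f` (a value of `F` at `n`) has at most two prime factors, counted with multiplicity, and they
are all at least `n ^ (23 / 100)` -/
def AlmostPrime (n : ℕ) (f : ℤ) : Prop :=
  f.natAbs.primeFactorsList.length ≤ 2 ∧
    ∀ p : ℕ, p.Prime → p ∣ f.natAbs → (n : ℝ) ^ (23 / 100 : ℝ) ≤ p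

/-- the integers of `(X, X + H]` in the class `r` modulo `Q` -/
def cls (X H Q : ℕ) (r : ℤ) : Finset ℕ :=
  (Finset.Ioc X (X + H)).filter (fun n : ℕ => (Q : ℤ) ∣ (n : ℤ) - r)

/-- the product of `1 - ω(p) / p` over the primes `p` dividing `Q`, where `ω(p)` is the number of the
roots of `n ^ 2 - 2` modulo `p` -/
noncomputable def classFactor (Q : ℕ) : ℝ :=
  ∏ p ∈ Q.primeFactors,
    (1 - (((Finset.range p).filter (fun m : ℕ => (p : ℤ) ∣ F m)).card : ℝ) / p)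

/-- For some `δ > 0`, the assertion `R X H Q r` holds for all large `X`, all `H` with
`X ^ (1 - δ) ≤ H ≤ X / 2`, all `Q ≤ X ^ δ` and all classes `r` modulo `Q` with `r ^ 2 - 2` prime to
`Q`. -/
def InAllClasses (R : ℕ → ℕ → ℕ → ℤ → Prop) : Prop :=
  ∃ δ : ℝ, 0 < δ ∧ ∀ᶠ X : ℕ in atTop, ∀ H : ℕ, (X : ℝ) ^ (1 - δ) ≤ H → 2 * H ≤ X →
    ∀ (Q : ℕ) (r : ℤ), 1 ≤ Q → (Q : ℝ) ≤ (X : ℝ) ^ δ → IsCoprime (F r) Q → R X H Q r

theorem F_eq (n : ℤ) : F n = Pool.Agent.H543.DP.fv 1 0 (-2) n := by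
  unfold F Pool.Agent.H543.DP.fv
  push_cast
  ring

/-- the lower bound for the logarithmic integral -/
theorem Li_low (ε : ℝ) (hε : 0 < ε) : ∀ᶠ N : ℕ in atTop,
    (N : ℝ) / Real.log N ≤ (1 + ε) * ∫ t in (2 : ℝ)..(N : ℝ), 1 / Real.log t := by
  filter_upwards [eventually_ge_atTop (3 + ⌈2 * (1 + ε) / ε⌉₊)] with N hN
  have h1 : (3 : ℝ) + 2 * (1 + ε) / ε ≤ N := by
    have h2 : ((3 + ⌈2 * (1 + ε) / ε⌉₊ : ℕ) : ℝ) ≤ N := by exact_mod_cast hN
    push_cast at h2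
    have h3 := Nat.le_ceil (2 * (1 + ε) / ε)
    linarith
  have h2 : 0 ≤ 2 * (1 + ε) / ε := by positivity
  have hN3 : (3 : ℝ) ≤ N := by linarith
  have hN0 : (0 : ℝ) < N := by linarith
  have hlN : 0 < Real.log N := Real.log_pos (by linarith)
  have h3 : ∫ _ in (2 : ℝ)..(N : ℝ), 1 / Real.log N ≤ ∫ t in (2 : ℝ)..(N : ℝ), 1 / Real.log t := by
    apply intervalIntegral.integral_mono_on (by linarith)
    · simp
    · apply ContinuousOn.intervalIntegrable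
      rw [Set.uIcc_of_le (by linarith)]
      intro x hx
      have h5 : (1 : ℝ) < x := by linarith [hx.1]
      apply ContinuousAt.continuousWithinAt
      apply ContinuousAt.div continuousAt_const
      · exact Real.continuousAt_log (by linarith)
      · exact (Real.log_pos h5).ne'
    · intro x hx
      have h5 : (1 : ℝ) < x := by linarith [hx.1]
      apply one_div_le_one_div_of_le (Real.log_pos h5)
      exact Real.log_le_log (by linarith) hx.2
  rw [intervalIntegral.integral_const, smul_eq_mul] at h3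
  have h4 : (N : ℝ) / Real.log N ≤ (1 + ε) * (((N : ℝ) - 2) * (1 / Real.log N)) := by
    rw [← mul_assoc, mul_one_div]
    apply div_le_div_of_nonneg_right _ hlN.le
    have h6 : 2 * (1 + ε) / ε ≤ N := by linarith
    rw [div_le_iff₀ hε] at h6
    nlinarith
  refine h4.trans ?_
  exact mul_le_mul_of_nonneg_left h3 (by linarith)

theorem jac8 (p : ℕ) (hp : p.Prime) (h2 : p ≠ 2) : jacobiSym 8 p = jacobiSym 2 p := by
  have h1 : (8 : ℤ) = 2 * 2 ^ 2 := by norm_num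
  have h3 : Int.gcd 2 (p : ℤ) = 1 := by
    have h4 : Nat.Coprime 2 p := (Nat.coprime_primes Nat.prime_two hp).2 (Ne.symm h2)
    exact h4
  rw [h1, jacobiSym.mul_left, jacobiSym.sq_one' h3, mul_one]

open Classical in
/-- **The primes and almost primes `n ^ 2 - 2`.** -/
theorem result :
    ∃ C : ℝ, 0 < C ∧ Tendsto partialC atTop (𝓝 C) ∧
      (∀ ε : ℝ, 0 < ε → ∀ᶠ N : ℕ in atTop,
        (P N : ℝ) ≤ (48 / 13 + ε) * (C / 2 * ∫ t in (2 : ℝ)..(N : ℝ), 1 / Real.log t)) ∧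
      (∃ κ : ℝ, 0 < κ ∧ ∀ᶠ N : ℕ in atTop, κ * (N / Real.log N) ≤
        (((Finset.Icc 1 N).filter (fun n : ℕ => AlmostPrime n (F n))).card : ℝ)) ∧
      (∀ b : ℕ, 2 ≤ b → ∃ δ κ : ℝ, 0 < δ ∧ 0 < κ ∧ ∀ᶠ K : ℕ in atTop, ∀ j : ℕ, (j : ℝ) ≤ δ * K →
        ∀ (L : ℕ) (t : ℤ), 3 ≤ L → L < b ^ j → IsCoprime (F t) b →
        κ * ((b : ℝ) ^ (K - j) / ((b : ℝ) ^ j * K)) ≤ (((Finset.range (b ^ K)).filter (fun n : ℕ =>
          n / b ^ (K - j) = L ∧ ((b ^ j : ℕ) : ℤ) ∣ (n : ℤ) - t ∧ AlmostPrime n (F n))).card : ℝ)) ∧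
      (∀ ε : ℝ, 0 < ε → InAllClasses fun X H Q r =>
        (((cls X H Q r).filter (fun n : ℕ => Prime (F n))).card : ℝ) ≤
          (48 / 13 + ε) * (C / 2) * ((H : ℝ) / (Q * classFactor Q * Real.log X))) ∧
      (∀ η : ℝ, 0 < η → η < 13 / 24 → ∃ κ : ℝ, 0 < κ ∧ InAllClasses fun X H Q r =>
        κ * ((H : ℝ) / (Q * Real.log X)) ≤ (((cls X H Q r).filter (fun n : ℕ =>
          ∀ p : ℕ, p.Prime → (p : ℤ) ∣ F n → (n : ℝ) ^ η < p)).card : ℝ)) ∧
      (∃ κ : ℝ, 0 < κ ∧ InAllClasses fun X H Q r =>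
        κ * ((H : ℝ) / (Q * Real.log X)) ≤
          (((cls X H Q r).filter (fun n : ℕ => AlmostPrime n (F n))).card : ℝ)) ∧
      ∃ M K : ℝ, ∀ (Q : ℕ) (r : ℤ), 1 ≤ Q → IsCoprime (F r) Q →
        ∃ n : ℕ, (n : ℝ) ≤ K * (Q : ℝ) ^ M ∧ (Q : ℤ) ∣ (n : ℤ) - r ∧ 1 < F n ∧
          (F n).natAbs.primeFactorsList.length ≤ 2 := by
  obtain ⟨A0, Fu, fl, hSF⟩ := Pool.Agent.W366.DC.SFX
  have hA0 : A0 = 2 * Real.exp Real.eulerMascheroniConstant :=
    Pool.Agent.Y882.JR.A0_eq Pool.Agent.Y445.JRB.t hSF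
  have hna : ¬ IsSquare (-(Pool.Agent.H543.DP.dt 1 0 (-2))) := by
    have h0 : -(Pool.Agent.H543.DP.dt 1 0 (-2)) = 8 := by
      unfold Pool.Agent.H543.DP.dt
      norm_num
    rw [h0]
    rintro ⟨s, hs⟩
    have h1 : s.natAbs * s.natAbs = 8 := by
      have := congrArg Int.natAbs hs
      rw [Int.natAbs_mul] at this
      exact this.symm
    have h2 : s.natAbs ≤ 2 := by
      by_contra h3
      have : 3 * 3 ≤ s.natAbs * s.natAbs := Nat.mul_le_mul (by omega) (by omega)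
      omega
    interval_cases h4 : s.natAbs <;> omega
  have hg : Int.gcd (Int.gcd ((1 : ℕ) : ℤ) 0 : ℤ) (-2) = 1 := by decide
  have ho : ¬ (Even (((1 : ℕ) : ℤ) + 0) ∧ Even (-2 : ℤ)) := by
    rintro ⟨h1, -⟩
    exact absurd h1 (by decide)
  obtain ⟨S, hS0, hS⟩ := Pool.Agent.H543.DP.cpr_conv 1 0 (-2) le_rfl hna
  have hcf : Pool.Agent.H543.DP.cfac 1 0 = 1 / 2 := by
    unfold Pool.Agent.H543.DP.cfac
    rw [if_neg (by decide)]
    simp
  have hpc : partialC = Pool.Agent.H543.DP.cpr 1 0 (-2) := by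
    funext N
    unfold partialC Pool.Agent.H543.DP.cpr
    have e1 : (Finset.range (N + 1)).filter (fun p : ℕ => p.Prime ∧ p ≠ 2) =
        (Finset.range (N + 1)).filter (fun p : ℕ => Nat.Prime p ∧ 3 ≤ p ∧
          ¬ ((p : ℤ) ∣ ((1 : ℕ) : ℤ))) := by
      apply filter_congr
      intro p _
      constructor
      · rintro ⟨h1, h2⟩
        have h5 := h1.two_le
        refine ⟨h1, by omega, fun hd => ?_⟩
        have h3 : p ∣ 1 := by exact_mod_cast hd
        exact h1.one_lt.ne' (Nat.dvd_one.1 h3)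
      · rintro ⟨h1, h2, -⟩
        exact ⟨h1, by omega⟩
    rw [← e1]
    apply prod_congr rfl
    intro p hp
    rw [mem_filter] at hp
    have e2 : (0 : ℤ) ^ 2 - 4 * ((1 : ℕ) : ℤ) * (-2) = 8 := by
      norm_num
    rw [e2, jac8 p hp.2.1 hp.2.2]
  refine ⟨S, hS0, ?_, ?_, ?_, ?_, ?_, ?_, ?_, ?_⟩
  · rw [hpc]
    exact hS
  · intro ε hε
    obtain ⟨e, he0, he⟩ : ∃ e : ℝ, 0 < e ∧ (48 / 13 + e) * (1 + e) ≤ 48 / 13 + ε := by
      refine ⟨min 1 (ε / 10), lt_min one_pos (by linarith), ?_⟩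
      have h1 : min 1 (ε / 10) ≤ 1 := min_le_left _ _
      have h2 : min 1 (ε / 10) ≤ ε / 10 := min_le_right _ _
      have h3 : 0 < min 1 (ε / 10) := lt_min one_pos (by linarith)
      nlinarith
    have h1 := Pool.Agent.H543.DP.pcN_up Pool.Agent.Y346.PA.kl 1 0 (-2) le_rfl hna hg ho S hS0 hS e he0
    filter_upwards [h1, Li_low e he0, eventually_ge_atTop 2] with N h2 h3 h5
    have h6 : P N ≤ Pool.Agent.H543.DP.pcN 1 0 (-2) N := by
      unfold P Pool.Agent.H543.DP.pcN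
      apply card_le_card
      intro x hx
      rw [mem_filter, mem_Icc] at hx
      rw [mem_filter, mem_Icc]
      refine ⟨⟨by omega, hx.1.2⟩, ?_⟩
      have h9 : 2 ≤ x ^ 2 := by nlinarith [hx.1.1]
      have h8 : Pool.Agent.H543.DP.fv 1 0 (-2) x = ((x ^ 2 - 2 : ℕ) : ℤ) := by
        unfold Pool.Agent.H543.DP.fv
        rw [Nat.cast_sub h9]
        push_cast
        ring
      rw [h8]
      exact Nat.prime_iff_prime_int.1 hx.2
    have h7 : (P N : ℝ) ≤ Pool.Agent.H543.DP.pcN 1 0 (-2) N := by exact_mod_cast h6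
    rw [hcf] at h2
    have hn0 : (2 : ℝ) ≤ N := by exact_mod_cast h5
    have h8 : 0 < (N : ℝ) / Real.log N := by
      have := Real.log_pos (show (1 : ℝ) < N by linarith)
      positivity
    obtain ⟨I, hI⟩ : ∃ I : ℝ, I = ∫ t in (2 : ℝ)..(N : ℝ), 1 / Real.log t := ⟨_, rfl⟩
    rw [← hI] at h3 ⊢
    have hL0 : 0 < I := by
      have h9 : 0 < (1 + e) * I := lt_of_lt_of_le h8 h3
      exact pos_of_mul_pos_right h9 (by linarith)
    calc (P N : ℝ) ≤ (48 / 13 + e) * (1 / 2 * S) * ((N : ℝ) / Real.log N) := h7.trans h2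
      _ ≤ (48 / 13 + e) * (1 / 2 * S) * ((1 + e) * I) := mul_le_mul_of_nonneg_left h3 (by positivity)
      _ = (48 / 13 + e) * (1 + e) * (S / 2 * I) := by ring
      _ ≤ (48 / 13 + ε) * (S / 2 * I) := mul_le_mul_of_nonneg_right he (by positivity)
  · obtain ⟨κ, hκ, h1⟩ := Pool.Agent.H543.DP.p2N_low Pool.Agent.Y346.PA.kl 1 0 (-2) le_rfl hna hg ho
    refine ⟨κ, hκ, ?_⟩
    filter_upwards [h1] with N h2
    unfold AlmostPrime
    simp only [F_eq]
    exact h2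
  · intro b hb
    obtain ⟨δ, κ, hδ, hκ, h1⟩ := Pool.Agent.H543.DP.digits_p2 Pool.Agent.Y346.PA.kl 1 0 (-2) le_rfl hna
      hg ho b hb
    refine ⟨δ, κ, hδ, hκ, ?_⟩
    filter_upwards [h1] with K h2
    intro j hj L t hL hLb ht
    unfold AlmostPrime
    simp only [F_eq] at ht ⊢
    exact h2 j hj L t hL hLb ht
  · intro ε hε
    obtain ⟨δ, hδ, h5⟩ := Pool.Agent.H543.DP.prime_f Pool.Agent.Y346.PA.kl 1 0 (-2) le_rfl hna hg ho
      A0 Fu fl hSF hA0 S hS0 hS ε hε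
    refine ⟨δ, hδ, ?_⟩
    filter_upwards [Pool.Agent.H543.DP.to_half 0 _ δ h5] with X h6
    intro H h7 h8 Q r h9 h10 h11
    rw [F_eq] at h11
    have h12 := h6 H h7 h8 Q r h9 h10 h11
    rw [hcf] at h12
    have e5 : (1 : ℝ) / 2 * S = S / 2 := by ring
    rw [e5] at h12
    unfold classFactor
    simp only [F_eq]
    exact h12
  · intro η h1 h2
    obtain ⟨δ, hδ, κ, hκ, h5⟩ := Pool.Agent.H543.DP.rgh_f Pool.Agent.Y346.PA.kl 1 0 (-2) le_rfl hna
      hg ho A0 Fu fl hSF S hS0 hS η h1 h2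
    refine ⟨κ, hκ, δ, hδ, ?_⟩
    filter_upwards [Pool.Agent.H543.DP.to_half 0 _ δ h5] with X h6
    intro H h7 h8 Q r h9 h10 h11
    rw [F_eq] at h11
    simp only [F_eq]
    exact h6 H h7 h8 Q r h9 h10 h11
  · obtain ⟨δ, hδ, κ, hκ, h5⟩ := Pool.Agent.H543.DP.p2_f Pool.Agent.Y346.PA.kl 1 0 (-2) le_rfl hna
      hg ho
    refine ⟨κ, hκ, δ, hδ, ?_⟩
    filter_upwards [Pool.Agent.H543.DP.to_half 0 _ δ h5] with X h6
    intro H h7 h8 Q r h9 h10 h11
    rw [F_eq] at h11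
    unfold AlmostPrime
    simp only [F_eq]
    exact h6 H h7 h8 Q r h9 h10 h11
  · obtain ⟨M, K, h5⟩ := Pool.Agent.H543.DP.least_f Pool.Agent.Y346.PA.kl 1 0 (-2) le_rfl hna hg ho
    refine ⟨M, K, ?_⟩
    intro Q r hQ hc
    rw [F_eq] at hc
    obtain ⟨n, h6, h7, h9, h8⟩ := h5 Q r hQ hc
    refine ⟨n, h6, h7, ?_, ?_⟩
    · rw [F_eq]
      exact h9
    · rw [F_eq]
      exact h8

end Pool.Agent.Results.MP_0b748d_nt.UpperBoundAndAlmostPrimes
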