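import Pool.Agent.H535.AK.Poly
import Pool.Agent.H535.AK.Quad
import Pool.Agent.H535.AK.Dimc

set_option autoImplicit false

/-!
# Arbitrary weights on the arguments at which a quadratic polynomial is prime

Let `f(t) = a t ^ 2 + b t + c` be admissible and let `u` be an ARBITRARY complex weight on the integers `t` of an
interval `(Y, Y + X]`, in any position, for which `f(t)` is prime (`± p`, `p > √X`), or more generally
`f(t)` has no prime factor `≤ √X` and at most `J` prime factors.  For moduli `k ∈ (K, 2K]` with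
`√X (log X) ^ C ≤ K ≤ X` the mean square of the errors of `u` in the residue classes `r` with `(f(r), k) = 1`, with
respect to ANY main terms `z k`, is on average over `k` at least `(1 - ε) log (K ^ 2 / X) / log X` times
`∑ |u| ^ 2`.  So no set of such arguments, however chosen, is better distributed in the progressions to moduli
`X ^ θ`, `θ > 1 / 2`, than a proportion `2 θ - 1` of the random size.  The range is the correct one: a set
with more than `∑_{K < k ≤ 2K} k` elements carries weights whose sums over all the residue classes to all the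
moduli `k ∈ (K, 2K]` vanish, and this happens for all `K ≤ √X / (log X) ^ A` for the sets with `X / log X` elements.

Proof.  The exponential sum of `u` cannot have more than the proportion
`1 - (1 - ε) log (K ^ 2 / X) / log X` of its `L^2` mass near the fractions with denominators at most `X / K`
(files `Ker`, `PropA`, `Lam`, `Mass`: the Ramanujan sums are decomposed into positive definite parts adapted to the
sieve, and the sums of the sieve weights over the integers coprime to `s` are compared at `z` and at `T z`),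
and the other points are hit by the fractions with denominators `k ∈ (K, 2K]` as often as expected
(files `Good`, `Var`).  The sieve has dimension one by Mertens' theorem for the character of the discriminant
(files `Chi`, `Quad`).
-/

open Finset

namespace Pool.Agent.Results.MP_0b748d_nt.WeightsOnPrimeValues

/-- the triple `(a, b, c)` is admissible -/
def Admissible (a b c : ℤ) : Prop :=
  0 < a ∧ (∀ d : ℤ, d ∣ a → d ∣ b → d ∣ c → IsUnit d) ∧ ¬ ((2 : ℤ) ∣ a + b ∧ (2 : ℤ) ∣ c) ∧
    ¬ IsSquare (b ^ 2 - 4 * a * c)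

/-- `n ≠ 0` has at most `J` prime factors and all of them are larger than `√X`; for `J = 1`: for
instance `n = ± p` with a prime `p > √X` -/
def Rough (J X : ℕ) (n : ℤ) : Prop :=
  n ≠ 0 ∧ n.natAbs.primeFactors.card ≤ J ∧ ∀ p : ℕ, p.Prime → p ∣ n.natAbs → X < p ^ 2

/-- the sum of the weights `u t` over the integers `Y < t ≤ Y + X` with `t ≡ r (mod k)` -/
noncomputable def inClass (u : ℤ → ℂ) (Y : ℤ) (X k : ℕ) (r : ℤ) : ℂ :=
  ∑ t ∈ (Ioc Y (Y + X)).filter (fun t => t ≡ r [ZMOD k]), u t

/-- the sum over the residue classes `r` modulo `k` with `(a r ^ 2 + b r + c, k) = 1` of the squares of the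
errors with respect to the main term `z` -/
noncomputable def errors (a b c : ℤ) (u : ℤ → ℂ) (Y : ℤ) (X k : ℕ) (z : ℂ) : ℝ :=
  ∑ r ∈ (range k).filter (fun r : ℕ => Int.gcd (a * (r : ℤ) ^ 2 + b * r + c) k = 1),
    ‖inClass u Y X k r - z‖ ^ 2

theorem errors_eq (a b c : ℤ) (u : ℤ → ℂ) (Y : ℤ) (X k : ℕ) (z : ℂ) : errors a b c u Y X k z =
    ∑ r ∈ Pool.Agent.H535.AK.CoC (fun t => a * t ^ 2 + b * t + c) k,
      ‖Pool.Agent.H535.AK.IC u Y X k r - z‖ ^ 2 := by
  unfold errors
  have h1 : (range k).filter (fun r : ℕ => Int.gcd (a * (r : ℤ) ^ 2 + b * r + c) k = 1) =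
      Pool.Agent.H535.AK.CoC (fun t => a * t ^ 2 + b * t + c) k := by
    ext r
    rw [mem_filter, mem_range, Pool.Agent.H535.AK.mem_CoC, Int.isCoprime_iff_gcd_eq_one]
  rw [h1]
  refine sum_congr rfl fun r _ => ?_
  have h2 : inClass u Y X k r = Pool.Agent.H535.AK.IC u Y X k r := by
    unfold inClass Pool.Agent.H535.AK.IC
    refine sum_congr (filter_congr fun t _ => ?_) fun _ _ => rfl
    constructor
    · intro h
      exact Int.modEq_iff_dvd.1 h.symm
    · intro h
      exact (Int.modEq_iff_dvd.2 h).symm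
  rw [h2]

theorem rough_prime (X : ℕ) (n : ℤ) (h : n.natAbs.Prime) (hX : X < n.natAbs ^ 2) : Rough 1 X n := by
  refine ⟨fun h0 => ?_, ?_, fun p hp hpn => ?_⟩
  · rw [h0] at h
    exact Nat.not_prime_zero h
  · rw [h.primeFactors, card_singleton]
  · rw [(Nat.prime_dvd_prime_iff_eq hp h).1 hpn]
    exact hX

/-- **Arbitrary weights on the arguments of the primes of a quadratic polynomial.**  The second part says that
prime values `f(t) = ± p`, `p > √X`, are admitted in the first part with `J = 1`. -/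
theorem result (a b c : ℤ) (h : Admissible a b c) :
    (∀ (J : ℕ) (ε : ℝ), 0 < ε → ε ≤ 1 → ∃ C : ℝ, ∃ X₀ : ℕ, ∀ X : ℕ, X₀ ≤ X →
      ∀ K : ℕ, √X * Real.log X ^ C ≤ K → K ≤ X → ∀ (Y : ℤ) (u : ℤ → ℂ),
      (∀ t : ℤ, Y < t → t ≤ Y + X → u t ≠ 0 → Rough J X (a * t ^ 2 + b * t + c)) → ∀ z : ℕ → ℂ,
      (1 - ε) * (Real.log ((K : ℝ) ^ 2 / X) / Real.log X) * K * ∑ t ∈ Ioc Y (Y + X), ‖u t‖ ^ 2 ≤
        ∑ k ∈ Ioc K (2 * K), errors a b c u Y X k (z k)) ∧
    (∀ (X : ℕ) (n : ℤ), n.natAbs.Prime → X < n.natAbs ^ 2 → Rough 1 X n) ∧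
    (∀ (K : ℕ) (S : Finset ℤ), ∑ k ∈ Ioc K (2 * K), k < S.card →
      ∃ u : ℤ → ℂ, (∀ t, u t ≠ 0 → t ∈ S) ∧ (∃ t, u t ≠ 0) ∧
        ∀ k ∈ Ioc K (2 * K), ∀ r : ℤ, ∑ t ∈ S.filter (fun t => t ≡ r [ZMOD k]), u t = 0) := by
  refine ⟨fun J ε hε hε1 => ?_, rough_prime, Pool.Agent.H535.AK.perfect⟩
  obtain ⟨A, hA⟩ := Pool.Agent.H535.AK.quad_dim a b c h
  have hF : ∀ x y : ℤ, x - y ∣ (fun t => a * t ^ 2 + b * t + c) x - (fun t => a * t ^ 2 + b * t + c) y := by
    intro x y
    refine ⟨a * (x + y) + b, ?_⟩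
    ring
  obtain ⟨C, X₀, hmain⟩ := Pool.Agent.H535.AK.poly_var (fun t => a * t ^ 2 + b * t + c) hF (m := 0) hA J ε hε hε1
  refine ⟨C, X₀, fun X hX K hK hKX Y u hu z => ?_⟩
  rw [sum_congr rfl fun k _ => errors_eq a b c u Y X k (z k)]
  have h1 := hmain X hX K hK hKX Y u (fun t ht hne => by
    rw [mem_Ioc] at ht
    obtain ⟨h0, hJ, hbig⟩ := hu t ht.1 ht.2 hne
    exact ⟨h0, hJ, fun p hp hd => hbig p hp (Int.natCast_dvd.1 hd)⟩) z
  refine le_trans (le_of_eq ?_) h1
  rw [zero_add, pow_one, sub_sub_cancel]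

end Pool.Agent.Results.MP_0b748d_nt.WeightsOnPrimeValues
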